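import Mathlib

/-!
# For which spaces and open convex sets does location by the closure imply location?
-/

set_option autoImplicit false

open Filter Topology

namespace Pool.Agent.Results.MP_ddf116_an.AllSpaces

section Defs

variable {X : Type*} [AddCommGroup X] [Module ℝ X] [TopologicalSpace X]

/-- `T : X ⇉ X*` is monotone: `⟨x - y, a - b⟩ ≥ 0` for all `a ∈ T x` and `b ∈ T y`. -/
def IsMonotone (T : X → Set (X →L[ℝ] ℝ)) : Prop :=
  ∀ x y : X, ∀ a ∈ T x, ∀ b ∈ T y, 0 ≤ a (x - y) - b (x - y)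

/-- `V` locates `T`: every pair `(x, a)` with `x ∈ V` that is monotonically related to the
restriction of `T` to `V` has `x` in the domain of `T`. -/
def Locates (V : Set X) (T : X → Set (X →L[ℝ] ℝ)) : Prop :=
  ∀ x ∈ V, ∀ a : X →L[ℝ] ℝ, (∀ y ∈ V, ∀ b ∈ T y, 0 ≤ a (x - y) - b (x - y)) → (T x).Nonempty

end Defs

variable {X : Type*} [AddCommGroup X] [Module ℝ X] [TopologicalSpace X]
  [IsTopologicalAddGroup X] [ContinuousSMul ℝ X] [LocallyConvexSpace ℝ X] [T2Space X]

/-- The operator used for the failure. -/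
def TT (V : Set X) (u d : X) (z : X) : Set (X →L[ℝ] ℝ) :=
  {a | (z = u ∧ a d = 0) ∨ ((∃ t : ℝ, t ≠ 0 ∧ z = u + t • d) ∧ z ∈ closure V ∧ a = 0)}

omit [IsTopologicalAddGroup X] [ContinuousSMul ℝ X] [LocallyConvexSpace ℝ X] [T2Space X] in
lemma TT_mono (V : Set X) (u d : X) : IsMonotone (TT V u d) := by
  intro x y a ha b hb
  rcases ha with ⟨hx, ha⟩ | ⟨⟨t, ht, hx⟩, -, ha⟩ <;>
    rcases hb with ⟨hy, hb⟩ | ⟨⟨s, hs, hy⟩, -, hb⟩
  · subst hx hy; simp
  · subst hx hy hb; simp [ha]
  · subst hx hy ha; simp [hb]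
  · subst ha hb; simp

/-- A vector outside the line spanned by `d ≠ 0` is detected by a functional vanishing at `d`. -/
lemma exists_functional {d w : X} (hd : d ≠ 0) (hw : ∀ t : ℝ, w ≠ t • d) :
    ∃ a : X →L[ℝ] ℝ, a d = 0 ∧ a w ≠ 0 := by
  obtain ⟨f, hf⟩ := SeparatingDual.exists_eq_one (R := ℝ) hd
  have h1 : w - f w • d ≠ 0 := sub_ne_zero.2 (hw _)
  obtain ⟨g, hg⟩ := SeparatingDual.exists_ne_zero (R := ℝ) h1
  refine ⟨g - g d • f, by simp [hf], ?_⟩
  simpa [mul_comm] using hg

lemma failure {V : Set X} (hVo : IsOpen V) (hne : V.Nonempty)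
    (hV : V ≠ Set.univ) (hrank : 1 < Module.rank ℝ X) :
    ∃ T : X → Set (X →L[ℝ] ℝ), IsMonotone T ∧ (∃ x ∈ V, (T x).Nonempty) ∧
      Locates (closure V) T ∧ ¬ Locates V T := by
  obtain ⟨y, hy⟩ := hne
  -- a boundary point
  have hfr : (frontier V).Nonempty := by
    rw [nonempty_frontier_iff]
    exact ⟨⟨y, hy⟩, hV⟩
  obtain ⟨u, hu⟩ := hfr
  have huV : u ∉ V := by
    intro h
    have := hu.2
    rw [hVo.interior_eq] at this
    exact this h
  have huc : u ∈ closure V := hu.1
  set d : X := y - u with hd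
  have hd0 : d ≠ 0 := by
    intro h
    rw [hd, sub_eq_zero] at h
    exact huV (h ▸ hy)
  have hyd : y = u + (1 : ℝ) • d := by simp [hd]
  refine ⟨TT V u d, TT_mono V u d, ⟨y, hy, 0, Or.inr ⟨⟨1, one_ne_zero, hyd⟩, subset_closure hy,
    rfl⟩⟩, ?_, ?_⟩
  · -- the closure locates
    intro x hx a ha
    by_cases hline : ∃ t : ℝ, x - u = t • d
    · obtain ⟨t, ht⟩ := hline
      have hx2 : x = u + t • d := by rw [← ht]; simp
      rcases eq_or_ne t 0 with h0 | h0
      · subst h0
        exact ⟨0, Or.inl ⟨by simpa using hx2, by simp⟩⟩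
      · exact ⟨0, Or.inr ⟨⟨t, h0, hx2⟩, hx, rfl⟩⟩
    · push Not at hline
      exfalso
      obtain ⟨c, hc1, hc2⟩ := exists_functional hd0 hline
      have key : ∀ t : ℝ, 0 ≤ a (x - u) - t * c (x - u) := by
        intro t
        have := ha u huc (t • c) (Or.inl ⟨rfl, by simp [hc1]⟩)
        simpa using this
      have := key ((a (x - u) + 1) / c (x - u))
      rw [div_mul_cancel₀ _ hc2] at this
      linarith
  · -- `V` does not locate
    intro hloc
    obtain ⟨x, hx, hxl⟩ : ∃ x ∈ V, ∀ t : ℝ, x - u ≠ t • d := by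
      by_contra hcon
      push Not at hcon
      -- `V` is contained in a line, so the space has rank at most one
      have hspan : ∀ z : X, ∃ t : ℝ, z = t • d := by
        intro z
        have hcont : Tendsto (fun r : ℝ => y + r • z) (𝓝 0) (𝓝 (y + (0 : ℝ) • z)) :=
          (Continuous.tendsto (by fun_prop) 0)
        rw [zero_smul, add_zero] at hcont
        have hev : ∀ᶠ r : ℝ in 𝓝 0, y + r • z ∈ V := hcont.eventually (hVo.mem_nhds hy)
        have hev2 : ∀ᶠ r : ℝ in 𝓝[>] 0, y + r • z ∈ V := hev.filter_mono nhdsWithin_le_nhds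
        obtain ⟨r, hr, hr0⟩ := (hev2.and self_mem_nhdsWithin).exists
        have hr0' : (0 : ℝ) < r := hr0
        obtain ⟨t, ht⟩ := hcon _ hr
        refine ⟨(t - 1) / r, ?_⟩
        have h2 : r • z = (t - 1) • d := by
          rw [sub_smul, one_smul, ← ht, hd]
          abel
        rw [div_eq_inv_mul, mul_smul, ← h2, smul_smul, inv_mul_cancel₀ hr0'.ne', one_smul]
      have hle : Module.rank ℝ X ≤ 1 := by
        rw [rank_le_one_iff]
        exact ⟨d, fun z => by obtain ⟨t, ht⟩ := hspan z; exact ⟨t, ht.symm⟩⟩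
      exact absurd hle (not_le.2 hrank)
    obtain ⟨c, hc1, hc2⟩ := exists_functional hd0 hxl
    obtain ⟨b, hb⟩ := hloc x hx ((c (x - u))⁻¹ • c) (by
      intro z hz b hb
      rcases hb with ⟨hzu, -⟩ | ⟨⟨t, ht, hzt⟩, -, hb⟩
      · exact absurd (hzu ▸ hz) huV
      · subst hb hzt
        have : x - (u + t • d) = (x - u) - t • d := by abel
        rw [this, map_sub, map_smul]
        simp only [smul_apply, smul_eq_mul, hc1, zero_apply]
        rw [inv_mul_cancel₀ hc2]
        norm_num)
    rcases hb with ⟨hxu, -⟩ | ⟨⟨t, ht, hxt⟩, -, -⟩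
    · exact huV (hxu ▸ hx)
    · exact hxl t (by rw [hxt]; abel)

/-- On a space of dimension at most one the implication holds. -/
lemma success_rank {V : Set X} (hVc : Convex ℝ V) (hrank : Module.rank ℝ X ≤ 1)
    (T : X → Set (X →L[ℝ] ℝ)) (hT : IsMonotone T) (hD : ∃ x ∈ V, (T x).Nonempty)
    (hloc : Locates (closure V) T) : Locates V T := by
  intro x hx a ha
  by_contra hemp
  rw [Set.not_nonempty_iff_eq_empty] at hemp
  obtain ⟨y₀, hy₀, b₀, hb₀⟩ := hD
  obtain ⟨v, hv⟩ := (rank_le_one_iff).1 hrank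
  -- `v ≠ 0`
  have hxy : y₀ ≠ x := by
    rintro rfl
    rw [hemp] at hb₀
    exact hb₀
  have hv0 : v ≠ 0 := by
    rintro rfl
    obtain ⟨r, hr⟩ := hv y₀
    obtain ⟨s, hs⟩ := hv x
    rw [smul_zero] at hr hs
    exact hxy (hr.symm.trans hs)
  obtain ⟨f, hf⟩ := SeparatingDual.exists_eq_one (R := ℝ) hv0
  have hrep : ∀ z : X, z = f z • v := by
    intro z
    obtain ⟨r, hr⟩ := hv z
    have : f z = r := by rw [← hr]; simp [hf]
    rw [this, hr]
  have hpair : ∀ (c : X →L[ℝ] ℝ) (z : X), c z = c v * f z := by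
    intro c z
    conv_lhs => rw [hrep z]
    rw [map_smul, smul_eq_mul, mul_comm]
  -- monotonicity in coordinates
  have hmono : ∀ y z : X, ∀ b ∈ T y, ∀ c ∈ T z, f y < f z → b v ≤ c v := by
    intro y z b hb c hc hlt
    have := hT y z b hb c hc
    rw [hpair b, hpair c, map_sub] at this
    by_contra hcon
    push Not at hcon
    nlinarith [mul_pos (sub_pos.2 hcon) (sub_pos.2 hlt)]
  have hne : ∀ y : X, (T y).Nonempty → f y ≠ f x := by
    intro y hy h
    have : y = x := by rw [hrep y, hrep x, h]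
    rw [this, hemp] at hy
    exact Set.not_nonempty_empty hy
  -- relation with points of `V`
  have hrelL : ∀ y ∈ V, ∀ b ∈ T y, f y < f x → b v ≤ a v := by
    intro y hy b hb hlt
    have := ha y hy b hb
    rw [hpair a, hpair b, map_sub] at this
    by_contra hcon
    push Not at hcon
    nlinarith [mul_pos (sub_pos.2 hcon) (sub_pos.2 hlt)]
  have hrelR : ∀ y ∈ V, ∀ b ∈ T y, f x < f y → a v ≤ b v := by
    intro y hy b hb hlt
    have := ha y hy b hb
    rw [hpair a, hpair b, map_sub] at this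
    by_contra hcon
    push Not at hcon
    nlinarith [mul_pos (sub_pos.2 hcon) (sub_pos.2 hlt)]
  -- points between two points of `V` lie in `V`
  have hbetween : ∀ y ∈ V, ∀ z ∈ V, ∀ p : X, f y ≤ f p → f p ≤ f z → p ∈ V := by
    intro y hy z hz p h1 h2
    rcases eq_or_lt_of_le (h1.trans h2) with h3 | h3
    · have : p = y := by
        rw [hrep p, hrep y]
        congr 1
        linarith
      rw [this]; exact hy
    · have hpos : 0 < f z - f y := sub_pos.2 h3
      have h4 : p = ((f z - f p) / (f z - f y)) • y + ((f p - f y) / (f z - f y)) • z := by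
        rw [hrep p, hrep y, hrep z, smul_smul, smul_smul, ← add_smul]
        simp only [map_smul, hf, smul_eq_mul, mul_one]
        congr 1
        field_simp
        ring
      rw [h4]
      refine hVc hy hz (div_nonneg (by linarith) hpos.le) (div_nonneg (by linarith) hpos.le) ?_
      rw [← add_div, div_eq_one_iff_eq hpos.ne']
      ring
  -- a level that is related to everything in the closure
  set A : Set ℝ := {r | ∃ y ∈ closure V, ∃ b ∈ T y, f y < f x ∧ r = b v} with hA
  set B : Set ℝ := {r | ∃ y ∈ closure V, ∃ b ∈ T y, f x < f y ∧ r = b v} with hB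
  have hAB : ∀ r ∈ A, ∀ s ∈ B, r ≤ s := by
    rintro r ⟨y, hy, b, hb, hlt, rfl⟩ s ⟨z, hz, c, hc, hlt', rfl⟩
    exact hmono y z b hb c hc (hlt.trans hlt')
  have hlevel : ∃ l : ℝ, (∀ r ∈ A, r ≤ l) ∧ ∀ s ∈ B, l ≤ s := by
    by_cases hAne : A.Nonempty
    · by_cases hBne : B.Nonempty
      · obtain ⟨s, hs⟩ := hBne
        exact ⟨sSup A, fun r hr => le_csSup ⟨s, fun r' hr' => hAB r' hr' s hs⟩ hr,
          fun s' hs' => csSup_le hAne fun r hr => hAB r hr s' hs'⟩
      · -- everything lies on the left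
        have hlt0 : f y₀ < f x := by
          rcases lt_trichotomy (f y₀) (f x) with h | h | h
          · exact h
          · exact absurd h (hne y₀ ⟨b₀, hb₀⟩)
          · exact absurd ⟨_, y₀, subset_closure hy₀, b₀, hb₀, h, rfl⟩ hBne
        refine ⟨a v, ?_, fun s hs => absurd ⟨s, hs⟩ hBne⟩
        rintro r ⟨y, hy, b, hb, hlt, rfl⟩
        by_cases hyV : y ∈ V
        · exact hrelL y hyV b hb hlt
        · have h5 : f y < f y₀ := by
            by_contra hcon
            push Not at hcon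
            exact hyV (hbetween y₀ hy₀ x hx y hcon hlt.le)
          exact (hmono y y₀ b hb b₀ hb₀ h5).trans (hrelL y₀ hy₀ b₀ hb₀ hlt0)
    · by_cases hBne : B.Nonempty
      · have hlt0 : f x < f y₀ := by
          rcases lt_trichotomy (f y₀) (f x) with h | h | h
          · exact absurd ⟨_, y₀, subset_closure hy₀, b₀, hb₀, h, rfl⟩ hAne
          · exact absurd h (hne y₀ ⟨b₀, hb₀⟩)
          · exact h
        refine ⟨a v, fun s hs => absurd ⟨s, hs⟩ hAne, ?_⟩
        rintro r ⟨y, hy, b, hb, hlt, rfl⟩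
        by_cases hyV : y ∈ V
        · exact hrelR y hyV b hb hlt
        · have h5 : f y₀ < f y := by
            by_contra hcon
            push Not at hcon
            exact hyV (hbetween x hx y₀ hy₀ y hlt.le hcon)
          exact (hrelR y₀ hy₀ b₀ hb₀ hlt0).trans (hmono y₀ y b₀ hb₀ b hb h5)
      · exact ⟨0, fun s hs => absurd ⟨s, hs⟩ hAne, fun s hs => absurd ⟨s, hs⟩ hBne⟩
  obtain ⟨l, hl1, hl2⟩ := hlevel
  have := hloc x (subset_closure hx) (l • f) (by
    intro y hy b hb
    rw [hpair b, smul_apply, map_sub, smul_eq_mul]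
    rcases lt_trichotomy (f y) (f x) with h | h | h
    · have := hl1 _ ⟨y, hy, b, hb, h, rfl⟩
      nlinarith [mul_nonneg (sub_nonneg.2 this) (sub_nonneg.2 h.le)]
    · exact absurd h (hne y ⟨b, hb⟩)
    · have := hl2 _ ⟨y, hy, b, hb, h, rfl⟩
      nlinarith [mul_nonneg (sub_nonneg.2 this) (sub_nonneg.2 h.le)])
  rw [hemp] at this
  exact Set.not_nonempty_empty this

/-- For a Hausdorff real locally convex space `X` and a nonempty open convex set `V`, the
implication `closure V locates T → V locates T` holds for all monotone operators `T` whose domain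
meets `V` if and only if `V = X` or `dim X ≤ 1`. -/
theorem result (X : Type*) [AddCommGroup X] [Module ℝ X] [TopologicalSpace X]
    [IsTopologicalAddGroup X] [ContinuousSMul ℝ X] [LocallyConvexSpace ℝ X] [T2Space X]
    (V : Set X) (hVo : IsOpen V) (hVc : Convex ℝ V) (hne : V.Nonempty) :
    (∀ T : X → Set (X →L[ℝ] ℝ), IsMonotone T → (∃ x ∈ V, (T x).Nonempty) →
      Locates (closure V) T → Locates V T) ↔ (V = Set.univ ∨ Module.rank ℝ X ≤ 1) := by
  constructor
  · intro h
    by_contra hcon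
    push Not at hcon
    obtain ⟨T, h1, h2, h3, h4⟩ := failure hVo hne hcon.1 hcon.2
    exact h4 (h T h1 h2 h3)
  · rintro (h | h) T hT hD hloc
    · subst h
      rwa [closure_univ] at hloc
    · exact success_rank hVc h T hT hD hloc

end Pool.Agent.Results.MP_ddf116_an.AllSpaces
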