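import Pool.Agent.Lib.MP_ddf116_an.Locate

/-!
# The closure of an open convex set can locate a maximal monotone operator that the set does not

The operator lives on the Banach space `c₀(ℕ × ℕ) × ℝ` and the set is an open half-space.
-/

set_option autoImplicit false

namespace Pool.Agent.Results.MP_ddf116_an.MaximalBanach

section Defs

variable {X : Type*} [NormedAddCommGroup X] [NormedSpace ℝ X]

/-- `T : X ⇉ X*` is monotone: `⟨x - y, a - b⟩ ≥ 0` for all `a ∈ T x` and `b ∈ T y`. -/
def IsMonotone (T : X → Set (X →L[ℝ] ℝ)) : Prop :=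
  ∀ x y : X, ∀ a ∈ T x, ∀ b ∈ T y, 0 ≤ (a - b) (x - y)

/-- `(x, a)` is monotonically related to the restriction of `T` to `V`:
`⟨x - y, a - b⟩ ≥ 0` for all `y ∈ V` and `b ∈ T y`. -/
def Related (T : X → Set (X →L[ℝ] ℝ)) (V : Set X) (x : X) (a : X →L[ℝ] ℝ) : Prop :=
  ∀ y ∈ V, ∀ b ∈ T y, 0 ≤ (a - b) (x - y)

/-- `T` is maximal monotone: it is monotone and contains every pair monotonically related to
it. -/
def IsMaximalMonotone (T : X → Set (X →L[ℝ] ℝ)) : Prop :=
  IsMonotone T ∧ ∀ (x : X) (a : X →L[ℝ] ℝ), Related T Set.univ x a → a ∈ T x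

/-- `V` locates `T`: every pair `(x, a)` with `x ∈ V` that is monotonically related to the
restriction of `T` to `V` has `x` in the domain of `T`. -/
def Locates (V : Set X) (T : X → Set (X →L[ℝ] ℝ)) : Prop :=
  ∀ x ∈ V, ∀ a : X →L[ℝ] ℝ, Related T V x a → (T x).Nonempty

end Defs

open Pool.Agent.SumCE in
/-- There are a real Banach space `X`, a maximal monotone operator `T` on `X` and an open convex
set `V` meeting the domain of `T` such that the closure of `V` locates `T` but `V` does not. -/
theorem result : ∃ (X : Type) (_ : NormedAddCommGroup X) (_ : NormedSpace ℝ X)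
    (_ : CompleteSpace X) (T : X → Set (X →L[ℝ] ℝ)) (V : Set X),
    IsMaximalMonotone T ∧ IsOpen V ∧ Convex ℝ V ∧ (∃ x ∈ V, (T x).Nonempty) ∧
      Locates (closure V) T ∧ ¬ Locates V T := by
  refine ⟨E1, inferInstance, inferInstance, inferInstance, Op ce, VV, ⟨?_, ?_⟩, isOpen_VV,
    convex_VV, meets_VV, ?_, ?_⟩
  · intro x y a ha b hb
    exact Op_monotone contr_ce x y a b ha hb
  · intro x a h
    exact Op_ce_maximal x a fun y b hb => h y trivial b hb
  · intro x hx a h
    rw [closure_VV] at hx
    refine locates_closure hx fun y hy b hb => h y ?_ b hb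
    rw [closure_VV]
    exact hy
  · intro hloc
    obtain ⟨x, hx, a, ha, hne⟩ := not_locates_VV
    exact hne (hloc x hx a ha)

end Pool.Agent.Results.MP_ddf116_an.MaximalBanach
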